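import Pool.Agent.Helper6.IP.Defs

/-!
# Evaluation of directed acyclic graphs by programs which inspect few cells: first lemmas
-/

namespace Pool.Agent.Helper6.IP

variable {G : Dag} {A : Type} [AddCommGroup A]

open Classical in
/-- The value of a node is the sum of the contents of the right cells of its slots. -/
theorem val_eq (I : G.Cell A → A) (v : G.V) :
    G.val I v = ∑ s ∈ Finset.univ.filter (fun s => G.own s = v), I (rc I s) := by
  rw [Dag.val, Finset.sum_filter, Fintype.sum_sum_type]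
  congr 1
  · rw [← Finset.sum_filter]
    exact (Finset.sum_subtype (Finset.univ.filter fun w : G.Src => G.own (Sum.inl w) = v)
      (fun x => by rw [Finset.mem_filter]; exact and_iff_right (Finset.mem_univ _))
      (fun w => I (rc I (Sum.inl w)))).symm
  · rw [← Finset.sum_filter]
    exact (Finset.sum_subtype (Finset.univ.filter fun e : G.E => G.own (Sum.inr e) = v)
      (fun x => by rw [Finset.mem_filter]; exact and_iff_right (Finset.mem_univ _))
      (fun e => I (rc I (Sum.inr e)))).symm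

theorem rc_inj {I : G.Cell A → A} {s s' : G.Slot} (h : rc I s = rc I s') : s = s' := by
  rcases s with w | e <;> rcases s' with w' | e' <;> simp [rc] at h
  · rw [h]
  · rw [h.1]

theorem rc_inr_inj {I I' : G.Cell A → A} {e e' : G.E} (h : rc I (Sum.inr e) = rc I' (Sum.inr e')) :
    e = e' ∧ G.val I (G.tail e) = G.val I' (G.tail e') := by
  simpa [rc] using h

theorem rc_congr {I I' : G.Cell A → A} {s : G.Slot}
    (h : ∀ e, s = Sum.inr e → G.val I (G.tail e) = G.val I' (G.tail e)) : rc I s = rc I' s := by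
  rcases s with w | e
  · rfl
  · simp [rc, h e rfl]

theorem tail_ne_head (e : G.E) : G.tail e ≠ G.head e := fun h => by
  have := G.lt e
  rw [h] at this
  exact lt_irrefl _ this

/-- The uses of a node other than the root. -/
theorem out_of_ne {I : G.Cell A → A} {v : G.V} (hv : v ≠ G.root) {w : G.Cell A ⊕ A} (h : w ∈ Out I v) :
    ∃ e, G.tail e = v ∧ w = Sum.inl (rc I (Sum.inr e)) := by
  rcases h with h | h
  · exact h
  · exact absurd h.1 hv

theorem mem_HR {o : ℕ → G.Cell A ⊕ A} {I : G.Cell A → A} {v : G.V} :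
    v ∈ HR o I ↔ v ≠ G.root ∧ ∃ s, G.own s = v ∧ Blk o I s := by
  simp [HR, HH]

/-- A right cell of a slot of the node is not a use of the node. -/
theorem rc_notMem_out {I : G.Cell A → A} {s : G.Slot} {v : G.V} (hs : G.own s = v) :
    Sum.inl (rc I s) ∉ Out I v := by
  rintro (⟨e, he, h⟩ | ⟨-, a, h⟩)
  · have h1 := rc_inj (Sum.inl_injective h)
    rw [h1] at hs
    exact tail_ne_head e (he.trans hs.symm)
  · exact absurd h (by simp)

/-! ## Times -/

section tm

variable {W : Type} {o : ℕ → W} {w : W}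

theorem tm_le {t : ℕ} (h : o t = w) : tm o w ≤ t := by
  classical
  have h1 : ∃ m, o m = w := ⟨t, h⟩
  rw [tm, dif_pos h1]
  exact_mod_cast Nat.find_min' h1 h

theorem tm_eq {t : ℕ} (h : o t = w) (h' : ∀ j < t, o j ≠ w) : tm o w = t := by
  classical
  have h1 : ∃ m, o m = w := ⟨t, h⟩
  rw [tm, dif_pos h1]
  have h2 : Nat.find h1 = t := by
    refine le_antisymm (Nat.find_min' h1 h) ?_
    by_contra hc
    exact h' _ (not_le.1 hc) (Nat.find_spec h1)
  rw [h2]

theorem tm_lt {t : ℕ} (h : tm o w < t) : ∃ j < t, o j = w := by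
  classical
  by_cases h1 : ∃ m, o m = w
  · rw [tm, dif_pos h1] at h
    exact ⟨Nat.find h1, by exact_mod_cast h, Nat.find_spec h1⟩
  · rw [tm, dif_neg h1] at h
    exact absurd h (by simp)

theorem tm_eq_nat {t : ℕ} (h : tm o w = t) : o t = w := by
  classical
  by_cases h1 : ∃ m, o m = w
  · rw [tm, dif_pos h1] at h
    have h2 : Nat.find h1 = t := by exact_mod_cast h
    rw [← h2]
    exact Nat.find_spec h1
  · rw [tm, dif_neg h1] at h
    exact absurd h (by simp)

theorem tm_eq_top (h : ∀ m, o m ≠ w) : tm o w = ⊤ := by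
  classical
  rw [tm, dif_neg (by push Not; exact h)]

end tm

/-- There is at most one last slot for each node. -/
theorem Last.unique {o : ℕ → G.Cell A ⊕ A} {I : G.Cell A → A} {num : G.Slot → ℕ} {s s' : G.Slot}
    (h : Last o I num s) (h' : Last o I num s') (hs : G.own s = G.own s') : s = s' := by
  by_contra hne
  rcases h s' hs.symm (Ne.symm hne) with h1 | h1 <;> rcases h' s hs hne with h2 | h2
  · exact lt_asymm h1 h2
  · exact absurd h1 (by rw [h2.1]; exact lt_irrefl _)
  · exact absurd h2 (by rw [h1.1]; exact lt_irrefl _)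
  · exact absurd h1.2 (by omega)

/-! ## Counting observed cells -/

section cnt

omit [AddCommGroup A]

theorem cnt_mono {C : Type} {o : ℕ → C ⊕ A} {t t' : ℕ} (h : t ≤ t') : cnt o t ≤ cnt o t' := by
  refine Set.ncard_le_ncard (fun c hc => ?_) ?_
  · obtain ⟨m, hm, hm'⟩ := hc
    exact ⟨m, by omega, hm'⟩
  · refine Set.Finite.preimage Sum.inl_injective.injOn (s := (fun m => o m) '' Set.Iio t') ?_ |>.subset ?_
    · exact (Set.finite_Iio t').image _
    · rintro c ⟨m, hm, hm'⟩
      exact ⟨m, hm, hm'⟩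

theorem cnt_finite {C : Type} {o : ℕ → C ⊕ A} (t : ℕ) : {c : C | ∃ m < t, o m = Sum.inl c}.Finite := by
  refine Set.Finite.preimage Sum.inl_injective.injOn (s := (fun m => o m) '' Set.Iio t) ?_ |>.subset ?_
  · exact (Set.finite_Iio t).image _
  · rintro c ⟨m, hm, hm'⟩
    exact ⟨m, hm, hm'⟩

theorem cnt_lt {C : Type} {o : ℕ → C ⊕ A} {t t' : ℕ} {c : C} (h : t < t') (hc : o t = Sum.inl c)
    (hn : ∀ j < t, o j ≠ Sum.inl c) : cnt o t < cnt o t' := by
  refine Set.ncard_lt_ncard ⟨fun c hc => ?_, fun hsub => ?_⟩ (cnt_finite t')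
  · obtain ⟨m, hm, hm'⟩ := hc
    exact ⟨m, by omega, hm'⟩
  · obtain ⟨m, hm, hm'⟩ := hsub ⟨t, h, hc⟩
    exact hn m hm hm'

theorem cnt_congr {C : Type} {o o' : ℕ → C ⊕ A} {t : ℕ} (h : ∀ j < t, o j = o' j) : cnt o t = cnt o' t := by
  unfold cnt
  congr 1
  ext c
  constructor
  · rintro ⟨m, hm, hm'⟩
    exact ⟨m, hm, (h m hm) ▸ hm'⟩
  · rintro ⟨m, hm, hm'⟩
    exact ⟨m, hm, (h m hm).symm ▸ hm'⟩

/-! ## Runs -/

variable {N : ℕ}

theorem obs_congr {C : Type} {B : BP C A N} {I I' : C → A} {q : Fin N} {t : ℕ}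
    (h : (B.step I)^[t] q = (B.step I')^[t] q) : obs B I q t = obs B I' q t := by
  unfold obs
  rw [h]

/-- One more step of two runs which agree. -/
theorem run_succ {C : Type} {B : BP C A N} {I I' : C → A} {q : Fin N} {t : ℕ}
    (h : (B.step I)^[t] q = (B.step I')^[t] q) (hc : ∀ c, obs B I q t = Sum.inl c → I c = I' c) :
    (B.step I)^[t + 1] q = (B.step I')^[t + 1] q := by
  rw [Function.iterate_succ_apply', Function.iterate_succ_apply', h]
  unfold obs at hc
  rw [h] at hc
  generalize (B.step I')^[t] q = r at hc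
  unfold see at hc
  unfold BP.step
  rcases hact : B.act r with a | a
  · have h2 := hc a.1 (by rw [hact]; rfl)
    simp [h2]
  · rfl

end cnt

end Pool.Agent.Helper6.IP
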