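import Pool.Agent.Helper78.IPA.J
import Pool.Agent.Helper98.IP.Peb
import Pool.Agent.Helper18.IP.Push

/-!
Evaluation of a directed acyclic graph `G` with tables `A → A` on the edges (`k = |A|`, `M` cells): deterministic
branching programs with `N` states which inspect at most `T` cells are right on a part of at most
`(p + T) / k + N C(T, h) / k ^ h` of the inputs if `(d - 1) h + 1` pebbles are not enough for `G` (in-degrees at
most `d`), while programs which inspect only the right cells need about `(|V| k) ^ q` states if `q` pebbles are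
enough, and `M ^ 3` states with a pushdown store.
-/

namespace Pool.Agent.Results.MP_4e849b_lc.FewCellsPebbling

open Pool.Agent.Helper6.IP Pool.Agent.Helper18.IP

theorem result :
    (∀ (G : Dag) (A : Type) [AddCommGroup A] [Finite A],
      (∀ (d h T N p : ℕ) (φ : A → A) (B : BP (G.Cell A) A N), 2 ≤ d →
        (∀ v, Nat.card {e // G.head e = v} ≤ d) → ¬ G.Pebbles ((d - 1) * h + 1) →
        (∀ y, Nat.card {x // φ x = y} ≤ p) →
        (Nat.card {I : G.Cell A → A // B.Outputs I (φ (G.val I G.root)) ∧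
          Nat.card {c // B.Asks I c} ≤ T} : ℝ) ≤
          ((p + T) / Nat.card A + N * T.choose h / Nat.card A ^ h) * Nat.card (G.Cell A → A)) ∧
      (∀ q, G.Pebbles q →
        ∃ N ≤ ((Nat.card G.V + 1) * Nat.card A) ^ (q - 1) * (Nat.card A * (Nat.card G.E + 2)),
          ∃ B : BP (G.Cell A) A N, ∀ I : G.Cell A → A, B.Outputs I (G.val I G.root) ∧
            Nat.card {c // B.Asks I c} ≤ Nat.card G.Src + Nat.card G.E) ∧
      (2 ≤ Nat.card A → 1 ≤ Nat.card G.E →
        ∃ (S Γ : Type) (_ : Finite S) (_ : Finite Γ) (P : PBP (G.Cell A) A S Γ),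
          Nat.card S ≤ Nat.card (G.Cell A) ^ 3 ∧ Nat.card Γ ≤ Nat.card (G.Cell A) ∧
          ∀ I : G.Cell A → A, P.Outputs I (G.val I G.root) ∧
            Nat.card {c // P.Asks I c} ≤ Nat.card G.Src + Nat.card G.E)) ∧
    (∀ ε : ℝ, 0 < ε → ε ≤ 1 → ∃ a : ℕ, ∀ (G : Dag) (A : Type) [AddCommGroup A] [Finite A]
      (d h p N : ℕ) (φ : A → A) (B : BP (G.Cell A) A N), 2 ≤ d →
      (∀ v, Nat.card {e // G.head e = v} ≤ d) → ¬ G.Pebbles ((d - 1) * h + 1) → 1 ≤ h →
      (a * (Nat.card G.V + Nat.card G.E)) ^ a ≤ Nat.card A →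
      (∀ y, Nat.card {x // φ x = y} ≤ p) →
      (N : ℝ) ≤ (Nat.card (G.Cell A) : ℝ) ^ (ε * h / 8) →
      (Nat.card {I : G.Cell A → A // B.Outputs I (φ (G.val I G.root)) ∧
        (Nat.card {c // B.Asks I c} : ℝ) ≤ (Nat.card (G.Cell A) : ℝ) ^ (1 - ε)} : ℝ) ≤
        (p / Nat.card A + (Nat.card A : ℝ) ^ (-(ε / 3))) * Nat.card (G.Cell A → A)) ∧
    ∀ n : ℕ, 1 ≤ n → ¬ (pyr n).Pebbles (n + 1) := by
  refine ⟨fun G A _ _ => ?_, fun ε hε hε1 => ?_, fun _ hn => not_pebbles_pyr hn⟩
  · have := Fintype.ofFinite A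
    simp only [Nat.card_eq_fintype_card (α := A), Nat.card_eq_fintype_card (α := G.V),
      Nat.card_eq_fintype_card (α := G.E), Nat.card_eq_fintype_card (α := G.Src)]
    exact ⟨fun d h T _ p φ B hd2 hd hP hφ =>
      Pool.Agent.Helper1.IP.main_bound d h T p hd2 hd hP B φ hφ,
      fun q hq => Pool.Agent.Helper98.IP.pebble_program q hq,
      fun hA hE => pushdown_program G A hA hE⟩
  · obtain ⟨a, ha⟩ := gen_cor ε hε hε1
    refine ⟨a, fun G A _ _ d h p N φ B hd2 hd hP hh hk hφ hN => ?_⟩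
    have := Fintype.ofFinite A
    rw [Nat.card_eq_fintype_card (α := A)] at hk ⊢
    exact ha G A d h p N φ B hd2 hd hP hh hk hφ hN

end Pool.Agent.Results.MP_4e849b_lc.FewCellsPebbling
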