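import Pool.Agent.Helper6.IP.Model

/-!
# Evaluation of directed acyclic graphs by programs which inspect few cells: definitions
-/

namespace Pool.Agent.Helper6.IP

/-! ## Observations -/

/-- A slot is a source or an edge. -/
abbrev Dag.Slot (G : Dag) : Type := G.Src ⊕ G.E

/-- The node of a slot: the source, or the head of the edge. -/
def Dag.own (G : Dag) : G.Slot → G.V := Sum.elim (fun w => w.1) G.head

variable {G : Dag} {A : Type} [AddCommGroup A]

/-- The right cell of a slot. -/
noncomputable def rc (I : G.Cell A → A) : G.Slot → G.Cell A :=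
  Sum.elim (fun w => Sum.inl w) (fun e => Sum.inr (e, G.val I (G.tail e)))

/-- What is observed in a state: the queried cell, or the output. -/
def see {C A : Type} {N : ℕ} (B : BP C A N) (q : Fin N) : C ⊕ A := (B.act q).elim (fun t => Sum.inl t.1) Sum.inr

/-- What is observed in the `m`-th state of the run from `q`. -/
def obs {C A : Type} {N : ℕ} (B : BP C A N) (I : C → A) (q : Fin N) (m : ℕ) : C ⊕ A := see B ((B.step I)^[m] q)

/-- Something in `S` is observed, and up to then `c` is not observed. -/
def Held {W : Type} (o : ℕ → W) (S : Set W) (c : W) : Prop := ∃ m, o m ∈ S ∧ ∀ j ≤ m, o j ≠ c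

/-- The observations which use the value of the node `v`: the right cells of the outgoing edges, for the root the
outputs. -/
def Out (I : G.Cell A → A) (v : G.V) : Set (G.Cell A ⊕ A) :=
  {w | (∃ e, G.tail e = v ∧ w = Sum.inl (rc I (Sum.inr e))) ∨ (v = G.root ∧ ∃ a, w = Sum.inr a)}

/-- The slot is blocked: the value of its node is used before the right cell of the slot is observed. -/
def Blk (o : ℕ → G.Cell A ⊕ A) (I : G.Cell A → A) (s : G.Slot) : Prop :=
  Held o (Out I (G.own s)) (Sum.inl (rc I s))

open Classical in
/-- The held nodes. -/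
noncomputable def HH (o : ℕ → G.Cell A ⊕ A) (I : G.Cell A → A) : Finset G.V :=
  Finset.univ.filter (fun v => ∃ s, G.own s = v ∧ Blk o I s)

/-- The held nodes other than the root. -/
noncomputable def HR (o : ℕ → G.Cell A ⊕ A) (I : G.Cell A → A) : Finset G.V := (HH o I).erase G.root

/-! ## The code -/

/-- The number of the cells observed before the time `t`. -/
noncomputable def cnt {C A : Type} (o : ℕ → C ⊕ A) (t : ℕ) : ℕ := {c : C | ∃ m < t, o m = Sum.inl c}.ncard

/-- The time `t` is the first time when the value of `v` is used. -/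
def FO (o : ℕ → G.Cell A ⊕ A) (I : G.Cell A → A) (v : G.V) (t : ℕ) : Prop := o t ∈ Out I v ∧ ∀ j < t, o j ∉ Out I v

/-- The marks: for each held node other than the root the number of the cells observed before the first use. -/
def marks (o : ℕ → G.Cell A ⊕ A) (I : G.Cell A → A) : Set ℕ :=
  {j | ∃ v ∈ HR o I, ∃ t, FO o I v t ∧ cnt o t = j}

open Classical in
/-- The first time when `w` is observed. -/
noncomputable def tm {W : Type} (o : ℕ → W) (w : W) : ℕ∞ := if h : ∃ m, o m = w then ((Nat.find h : ℕ) : ℕ∞) else ⊤

/-- The slot `s` is the last one of its node: the times of the right cells of the other slots are smaller (if both are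
infinite, the numbers decide). -/
def Last (o : ℕ → G.Cell A ⊕ A) (I : G.Cell A → A) (num : G.Slot → ℕ) (s : G.Slot) : Prop :=
  ∀ s', G.own s' = G.own s → s' ≠ s → tm o (Sum.inl (rc I s')) < tm o (Sum.inl (rc I s)) ∨
    (tm o (Sum.inl (rc I s')) = tm o (Sum.inl (rc I s)) ∧ num s' < num s)

/-- The erased cells. -/
def Er (o : ℕ → G.Cell A ⊕ A) (I : G.Cell A → A) (num : G.Slot → ℕ) : Set (G.Cell A) :=
  {c | ∃ s, G.own s ∈ HR o I ∧ Last o I num s ∧ c = rc I s}

end Pool.Agent.Helper6.IP
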