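import Pool.Agent.Helper6.IP.Lockstep

/-!
# Frame (only for the work, not for the graded result)
-/

namespace Pool.Agent.Helper6.IP.Frame

open Pool.Agent.Helper6.IP

variable {G : Dag} {A : Type} [AddCommGroup A] {N : ℕ}

/-- IP-A. -/
theorem exists_many (o : ℕ → G.Cell A ⊕ A) (I : G.Cell A → A) (d h L : ℕ) (hd2 : 2 ≤ d)
    (hd : ∀ v, Nat.card {e // G.head e = v} ≤ d) (h0 : ∀ s, ¬ Blk o I s) (hL : ∃ a, o L = Sum.inr a)
    (hP : ¬ G.Pebbles ((d - 1) * h + 1)) : ∃ τ ≤ L, (HR (fun m => o (m + τ)) I).card = h := sorry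

/-- IP-C. -/
theorem count_marks [Fintype A] (B : BP (G.Cell A) A N) (q : Fin N) (T m : ℕ) :
    Nat.card {I : G.Cell A → A // (HR (obs B I q) I).card = m ∧
      {c | ∃ j, obs B I q j = Sum.inl c}.ncard ≤ T} * Fintype.card A ^ m ≤
      T.choose m * Nat.card (G.Cell A → A) := sorry

/-- IP-Z. -/
theorem zero_bound [Fintype A] (B : BP (G.Cell A) A N) (q : Fin N) (T : ℕ) :
    Nat.card {I : G.Cell A → A // (∃ s, G.own s ≠ G.root ∧ Blk (obs B I q) I s) ∧
      {c | ∃ j, obs B I q j = Sum.inl c}.ncard ≤ T} * Fintype.card A ≤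
      T * Nat.card (G.Cell A → A) := sorry

/-- IP-D. -/
theorem root_bound [Fintype A] (B : BP (G.Cell A) A N) (q : Fin N) (φ : A → A) (p : ℕ)
    (hφ : ∀ y, Nat.card {x // φ x = y} ≤ p) :
    Nat.card {I : G.Cell A → A // (∃ L, obs B I q L = Sum.inr (φ (G.val I G.root))) ∧
      ∃ s, G.own s = G.root ∧ ∀ m, obs B I q m ≠ Sum.inl (rc I s)} * Fintype.card A ≤
      p * Nat.card (G.Cell A → A) := sorry

/-- IP-E. -/
theorem main_bound [Fintype A] (d h T p : ℕ) (hd2 : 2 ≤ d) (hd : ∀ v, Nat.card {e // G.head e = v} ≤ d)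
    (hP : ¬ G.Pebbles ((d - 1) * h + 1)) (B : BP (G.Cell A) A N) (φ : A → A)
    (hφ : ∀ y, Nat.card {x // φ x = y} ≤ p) :
    (Nat.card {I : G.Cell A → A // B.Outputs I (φ (G.val I G.root)) ∧ Nat.card {c // B.Asks I c} ≤ T} : ℝ) ≤
      ((p + T) / Fintype.card A + N * T.choose h / Fintype.card A ^ h) * Nat.card (G.Cell A → A) := sorry

end Pool.Agent.Helper6.IP.Frame
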