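import Pool.Agent.Helper6.IP.Basic

/-!
# Evaluation of directed acyclic graphs by programs which inspect few cells: two runs with the same marks
-/

namespace Pool.Agent.Helper6.IP

variable {G : Dag} {A : Type} [AddCommGroup A] {N : ℕ}

/-- The observation is the right cell of an edge for one of the instances. -/
def Star (w : G.Cell A ⊕ A) (I I' : G.Cell A → A) : Prop :=
  ∀ e, w = Sum.inl (rc I (Sum.inr e)) ∨ w = Sum.inl (rc I' (Sum.inr e)) →
    G.val I (G.tail e) = G.val I' (G.tail e)

theorem Star.symm {w : G.Cell A ⊕ A} {I I' : G.Cell A → A} (h : Star w I I') : Star w I' I :=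
  fun e he => (h e he.symm).symm

/-- If a use of `v` is observed (for `I`), the values agree. -/
theorem Star.val_eq {w : G.Cell A ⊕ A} {I I' : G.Cell A → A} (h : Star w I I') {v : G.V} (hv : v ≠ G.root)
    (hw : w ∈ Out I v) : G.val I v = G.val I' v := by
  obtain ⟨e, he, hw⟩ := out_of_ne hv hw
  rw [← he]
  exact h e (Or.inl hw)

theorem Star.rc_eq {w : G.Cell A ⊕ A} {I I' : G.Cell A → A} (h : Star w I I') {s : G.Slot}
    (hw : w = Sum.inl (rc I s)) : rc I s = rc I' s :=
  rc_congr fun e he => h e (Or.inl (by rw [hw, he]))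

/-- Cells outside the erased set. -/
theorem notMem_Er {o : ℕ → G.Cell A ⊕ A} {I : G.Cell A → A} {num : G.Slot → ℕ} {s : G.Slot}
    (h : G.own s ∈ HR o I → ¬ Last o I num s) : rc I s ∉ Er o I num := by
  rintro ⟨s', h1, h2, h3⟩
  rw [← rc_inj h3] at h1 h2
  exact h h1 h2

/-- One direction of the step for `Star`. -/
theorem star_step {o o' : ℕ → G.Cell A ⊕ A} {I I' K : G.Cell A → A} {num : G.Slot → ℕ} {t : ℕ}
    (hm : marks o I = marks o' I') (hK : ∀ c, c ∉ Er o I num → K c = I c)
    (hK' : ∀ c, c ∉ Er o' I' num → K c = I' c) (ho : ∀ j ≤ t, o j = o' j) (hst : ∀ j < t, Star (o j) I I')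
    {e : G.E} (he : o t = Sum.inl (rc I (Sum.inr e))) : G.val I (G.tail e) = G.val I' (G.tail e) := by
  classical
  have hu : G.tail e ≠ G.root := G.top e
  have hout : o t ∈ Out I (G.tail e) := Or.inl ⟨e, rfl, he⟩
  by_cases h1 : ∃ j < t, o j ∈ Out I (G.tail e)
  · obtain ⟨j, hj, hj'⟩ := h1
    exact (hst j hj).val_eq hu hj'
  · push Not at h1
    by_cases h2 : G.tail e ∈ HR o I
    · -- the first use of a held node
      have h3 : cnt o t ∈ marks o I := ⟨G.tail e, h2, t, ⟨hout, h1⟩, rfl⟩
      rw [hm] at h3
      obtain ⟨v, hv, t', ⟨h4, h5⟩, h6⟩ := h3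
      have hv' : v ≠ G.root := (mem_HR.1 hv).1
      obtain ⟨e', he', ho'⟩ := out_of_ne hv' h4
      have h7 : t' = t := by
        by_contra hne
        rcases Nat.lt_or_gt_of_ne hne with h8 | h8
        · have h9 : cnt o' t' < cnt o' t := cnt_lt h8 ho' fun j hj h => h5 j hj (Or.inl ⟨e', he', h⟩)
          have h10 : cnt o t = cnt o' t := cnt_congr fun j hj => ho j hj.le
          omega
        · have h9 : cnt o' t < cnt o' t' := cnt_lt h8 ((ho t le_rfl).symm.trans he) fun j hj h =>
            h1 j hj (Or.inl ⟨e, rfl, (ho j hj.le).trans h⟩)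
          have h10 : cnt o t = cnt o' t := cnt_congr fun j hj => ho j hj.le
          omega
      subst h7
      have h8 : rc I (Sum.inr e) = rc I' (Sum.inr e') :=
        Sum.inl_injective (he.symm.trans ((ho t' le_rfl).trans ho'))
      obtain ⟨h9, h10⟩ := rc_inr_inj h8
      rw [h10, h9]
    · by_cases h3 : G.tail e ∈ HR o' I'
      · -- held in the other instance
        obtain ⟨-, s, hs, m, hm1, hm2⟩ := mem_HR.1 h3
        have h4 : ∀ s', G.own s' = G.tail e → ∃ j < t, o j = Sum.inl (rc I s') := by
          intro s' hs'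
          have h5 : ¬ Blk o I s' := fun hb => h2 (mem_HR.2 ⟨hu, s', hs', hb⟩)
          by_contra hc
          push Not at hc
          refine h5 ⟨t, by rw [hs']; exact hout, fun j hj => ?_⟩
          rcases Nat.lt_or_eq_of_le hj with hj' | hj'
          · exact hc j hj'
          · rw [hj', he]
            intro h6
            have h7 := rc_inj (Sum.inl_injective h6)
            rw [← h7] at hs'
            exact tail_ne_head e hs'.symm
        obtain ⟨j, hj, hj'⟩ := h4 s hs
        have h5 : rc I s = rc I' s := (hst j hj).rc_eq hj'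
        have h6 : m < j := by
          by_contra hc
          exact hm2 j (by omega) (by rw [← ho j hj.le, hj', h5])
        rw [hs] at hm1
        have h7 := (hst m (by omega)).symm.val_eq hu (I := I') (by rw [ho m (by omega)]; exact hm1)
        exact h7.symm
      · -- not held in both
        rw [Pool.Agent.Helper6.IP.val_eq, Pool.Agent.Helper6.IP.val_eq]
        refine Finset.sum_congr rfl fun s hs => ?_
        have hs' : G.own s = G.tail e := (Finset.mem_filter.1 hs).2
        have h5 : ¬ Blk o I s := fun hb => h2 (mem_HR.2 ⟨hu, s, hs', hb⟩)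
        have h6 : ∃ j < t, o j = Sum.inl (rc I s) := by
          by_contra hc
          push Not at hc
          refine h5 ⟨t, by rw [hs']; exact hout, fun j hj => ?_⟩
          rcases Nat.lt_or_eq_of_le hj with hj' | hj'
          · exact hc j hj'
          · rw [hj', he]
            intro h6
            have h7 := rc_inj (Sum.inl_injective h6)
            rw [← h7] at hs'
            exact tail_ne_head e hs'.symm
        obtain ⟨j, hj, hj'⟩ := h6
        have h7 : rc I s = rc I' s := (hst j hj).rc_eq hj'
        rw [← hK _ (notMem_Er fun h => absurd (hs' ▸ h) h2), ← hK' _ (notMem_Er fun h => absurd (hs' ▸ h) h3), h7]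

/-- One direction of the step for the answers. -/
theorem ans_step {o o' : ℕ → G.Cell A ⊕ A} {I I' K : G.Cell A → A} {num : G.Slot → ℕ} {t : ℕ}
    (hK : ∀ c, c ∉ Er o I num → K c = I c)
    (hK' : ∀ c, c ∉ Er o' I' num → K c = I' c) (ho : ∀ j ≤ t, o j = o' j) (hst : ∀ j ≤ t, Star (o j) I I')
    {c : G.Cell A} (hc : o t = Sum.inl c) (hnew : ∀ j < t, o j ≠ Sum.inl c) (hE : c ∈ Er o I num) :
    I c = I' c := by
  classical
  obtain ⟨s, hs, hL, rfl⟩ := hE
  obtain ⟨hv, s1, hs1, m, hm1, hm2⟩ := mem_HR.1 hs
  have htm : tm o (Sum.inl (rc I s)) = t := tm_eq hc hnew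
  -- the other slots are observed before
  have hoth : ∀ s', G.own s' = G.own s → s' ≠ s → ∃ j < t, o j = Sum.inl (rc I s') := by
    intro s' hs' hne
    rcases hL s' hs' hne with h | h
    · rw [htm] at h
      exact tm_lt h
    · exfalso
      rw [htm] at h
      have h2 := tm_eq_nat h.1
      exact hne (rc_inj (Sum.inl_injective (h2.symm.trans hc)))
  -- there is an earlier use
  have hmt : m < t := by
    by_cases h1 : s1 = s
    · by_contra hcon
      rw [h1] at hm2
      exact hm2 t (by omega) hc
    · obtain ⟨j, hj, hj'⟩ := hoth s1 hs1 h1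
      by_contra hcon
      exact hm2 j (by omega) hj'
  rw [hs1] at hm1
  have hval : G.val I (G.own s) = G.val I' (G.own s) := (hst m hmt.le).val_eq hv hm1
  have hrc : ∀ s', G.own s' = G.own s → rc I s' = rc I' s' := by
    intro s' hs'
    by_cases h1 : s' = s
    · rw [h1]
      exact (hst t le_rfl).rc_eq hc
    · obtain ⟨j, hj, hj'⟩ := hoth s' hs' h1
      exact (hst j hj.le).rc_eq hj'
  have hcont : ∀ s', G.own s' = G.own s → s' ≠ s → I (rc I s') = I' (rc I' s') := by
    intro s' hs' hne
    obtain ⟨j, hj, hj'⟩ := hoth s' hs' hne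
    rw [← hK _ (notMem_Er fun _ hl => hne (hl.unique hL hs')), ← hK' _ (notMem_Er fun _ hl => ?_), hrc s' hs']
    have h1 : tm o' (Sum.inl (rc I' s')) ≤ j := tm_le (by rw [← ho j hj.le, hj', hrc s' hs'])
    have h2 : tm o' (Sum.inl (rc I' s)) = t := by
      refine tm_eq ?_ fun j' hj' => ?_
      · rw [← ho t le_rfl, hc, hrc s rfl]
      · rw [← ho j' hj'.le, ← hrc s rfl]
        exact hnew j' hj'
    have h3 : (j : ℕ∞) < t := by exact_mod_cast hj
    rcases hl s hs'.symm (Ne.symm hne) with h4 | h4
    · rw [h2] at h4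
      exact absurd (h4.trans_le h1) (not_lt.2 h3.le)
    · rw [h2] at h4
      rw [← h4.1] at h1
      exact absurd h3 (not_lt.2 h1)
  rw [Pool.Agent.Helper6.IP.val_eq, Pool.Agent.Helper6.IP.val_eq] at hval
  have hmem : s ∈ Finset.univ.filter (fun s' => G.own s' = G.own s) := by simp
  rw [← Finset.add_sum_erase _ _ hmem, ← Finset.add_sum_erase _ _ hmem] at hval
  have hsum : ∑ x ∈ (Finset.univ.filter (fun s' => G.own s' = G.own s)).erase s, I (rc I x) =
      ∑ x ∈ (Finset.univ.filter (fun s' => G.own s' = G.own s)).erase s, I' (rc I' x) :=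
    Finset.sum_congr rfl fun x hx =>
      hcont x (Finset.mem_filter.1 (Finset.mem_of_mem_erase hx)).2 (Finset.ne_of_mem_erase hx)
  rw [hsum] at hval
  have h1 := add_right_cancel hval
  rw [← hrc s rfl] at h1
  exact h1

theorem lockstep (B : BP (G.Cell A) A N) (q : Fin N) (num : G.Slot → ℕ) (I I' K : G.Cell A → A)
    (hm : marks (obs B I q) I = marks (obs B I' q) I')
    (hK : ∀ c, c ∉ Er (obs B I q) I num → K c = I c) (hK' : ∀ c, c ∉ Er (obs B I' q) I' num → K c = I' c) :
    I = I' := by
  classical
  -- the runs agree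
  have key : ∀ t, (∀ j ≤ t, (B.step I)^[j] q = (B.step I')^[j] q) ∧ (∀ j < t, Star (obs B I q j) I I') ∧
      ∀ j < t, ∀ c, obs B I q j = Sum.inl c → I c = I' c := by
    intro t
    induction t with
    | zero =>
      refine ⟨fun j hj => ?_, fun j hj => absurd hj (by omega), fun j hj => absurd hj (by omega)⟩
      rw [Nat.le_zero.1 hj]
      rfl
    | succ t ih =>
      obtain ⟨h1, h2, h3⟩ := ih
      have ho : ∀ j ≤ t, obs B I q j = obs B I' q j := fun j hj => obs_congr (h1 j hj)
      have hst : Star (obs B I q t) I I' := by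
        rintro e (he | he)
        · exact star_step hm hK hK' ho h2 he
        · refine (star_step hm.symm hK' hK (fun j hj => (ho j hj).symm) (fun j hj => ?_)
            ((ho t le_rfl).symm.trans he)).symm
          rw [← ho j hj.le]
          exact (h2 j hj).symm
      have hst' : ∀ j ≤ t, Star (obs B I q j) I I' := fun j hj => by
        rcases Nat.lt_or_eq_of_le hj with h | h
        · exact h2 j h
        · rw [h]
          exact hst
      have hans : ∀ c, obs B I q t = Sum.inl c → I c = I' c := by
        intro c hc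
        by_cases hold : ∃ j < t, obs B I q j = Sum.inl c
        · obtain ⟨j, hj, hj'⟩ := hold
          exact h3 j hj c hj'
        · push Not at hold
          by_cases hE : c ∈ Er (obs B I q) I num
          · exact ans_step hK hK' ho hst' hc hold hE
          · by_cases hE' : c ∈ Er (obs B I' q) I' num
            · refine (ans_step hK' hK (fun j hj => (ho j hj).symm) (fun j hj => ?_)
                ((ho t le_rfl).symm.trans hc) (fun j hj h => hold j hj ((ho j hj.le).trans h)) hE').symm
              rw [← ho j hj]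
              exact (hst' j hj).symm
            · rw [← hK c hE, ← hK' c hE']
      refine ⟨fun j hj => ?_, fun j hj => hst' j (by omega), fun j hj c hc => ?_⟩
      · rcases Nat.lt_or_eq_of_le hj with h | h
        · exact h1 j (by omega)
        · rw [h]
          exact run_succ (h1 t le_rfl) hans
      · rcases Nat.lt_or_eq_of_le (Nat.lt_succ_iff.1 hj) with h | h
        · exact h3 j h c hc
        · rw [h] at hc
          exact hans c hc
  have ho : obs B I q = obs B I' q := funext fun t => obs_congr ((key t).1 t le_rfl)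
  have hst : ∀ t, Star (obs B I q t) I I' := fun t => (key (t + 1)).2.1 t (by omega)
  rw [← ho] at hm hK'
  set o := obs B I q with hodef
  -- the values agree
  have hstep : ∀ v : G.V, (∀ s, G.own s = v → rc I s = rc I' s) →
      G.val I v = G.val I' v ∧ ∀ s, G.own s = v → I (rc I s) = I' (rc I' s) := by
    intro v hrc
    by_cases hH : v ∈ HR o I ∨ v ∈ HR o I'
    · have hv : G.val I v = G.val I' v := by
        rcases hH with h | h
        · obtain ⟨h1, s, hs, m, hm1, -⟩ := mem_HR.1 h
          rw [hs] at hm1
          exact (hst m).val_eq h1 hm1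
        · obtain ⟨h1, s, hs, m, hm1, -⟩ := mem_HR.1 h
          rw [hs] at hm1
          exact ((hst m).symm.val_eq h1 hm1).symm
      refine ⟨hv, fun s hs => ?_⟩
      have hLL : ∀ s, G.own s = v → (Last o I' num s ↔ Last o I num s) := by
        intro s hs
        unfold Last
        rw [hs]
        refine forall_congr' fun s' => forall_congr' fun hs' => ?_
        rw [hrc s hs, hrc s' hs']
      have hcont : ∀ s, G.own s = v → ¬ Last o I num s → I (rc I s) = I' (rc I' s) := by
        intro s hs hl
        rw [← hK _ (notMem_Er fun _ => hl), ← hK' _ (notMem_Er fun _ h => hl ((hLL s hs).1 h)), hrc s hs]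
      by_cases hl : Last o I num s
      · rw [Pool.Agent.Helper6.IP.val_eq, Pool.Agent.Helper6.IP.val_eq] at hv
        have hmem : s ∈ Finset.univ.filter (fun s' => G.own s' = v) := by simp [hs]
        rw [← Finset.add_sum_erase _ _ hmem, ← Finset.add_sum_erase _ _ hmem] at hv
        have hsum : ∑ x ∈ (Finset.univ.filter (fun s' => G.own s' = v)).erase s, I (rc I x) =
            ∑ x ∈ (Finset.univ.filter (fun s' => G.own s' = v)).erase s, I' (rc I' x) :=
          Finset.sum_congr rfl fun x hx => by
            have hx1 := (Finset.mem_filter.1 (Finset.mem_of_mem_erase hx)).2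
            exact hcont x hx1 fun h => Finset.ne_of_mem_erase hx (h.unique hl (hx1.trans hs.symm))
        rw [hsum] at hv
        exact add_right_cancel hv
      · exact hcont s hs hl
    · push Not at hH
      have hcont : ∀ s, G.own s = v → I (rc I s) = I' (rc I' s) := by
        intro s hs
        rw [← hK _ (notMem_Er fun h => absurd (hs ▸ h) hH.1), ← hK' _ (notMem_Er fun h => absurd (hs ▸ h) hH.2),
          hrc s hs]
      refine ⟨?_, hcont⟩
      rw [Pool.Agent.Helper6.IP.val_eq, Pool.Agent.Helper6.IP.val_eq]
      exact Finset.sum_congr rfl fun s hs => hcont s (Finset.mem_filter.1 hs).2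
  have hval : ∀ (r : ℕ) (v : G.V), G.rk v < r →
      G.val I v = G.val I' v ∧ ∀ s, G.own s = v → I (rc I s) = I' (rc I' s) := by
    intro r
    induction r with
    | zero => exact fun v hv => absurd hv (by omega)
    | succ r ih =>
      intro v hv
      refine hstep v fun s hs => rc_congr fun e he => (ih _ ?_).1
      have h1 := G.lt e
      have h2 : G.head e = v := by rw [← hs, he]; rfl
      rw [h2] at h1
      omega
  have hall : ∀ v : G.V, G.val I v = G.val I' v ∧ ∀ s, G.own s = v → I (rc I s) = I' (rc I' s) :=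
    fun v => hval (G.rk v + 1) v (by omega)
  have hrc : ∀ s, rc I s = rc I' s := fun s => rc_congr fun e _ => (hall _).1
  funext c
  by_cases hE : c ∈ Er o I num
  · obtain ⟨s, -, -, rfl⟩ := hE
    have h1 := (hall (G.own s)).2 s rfl
    rw [← hrc s] at h1
    exact h1
  · by_cases hE' : c ∈ Er o I' num
    · obtain ⟨s, -, -, rfl⟩ := hE'
      have h1 := (hall (G.own s)).2 s rfl
      rw [hrc s] at h1
      exact h1
    · rw [← hK c hE, ← hK' c hE']

end Pool.Agent.Helper6.IP
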