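import Mathlib

/-!
# Evaluation of directed acyclic graphs: graphs, pebbling, branching programs
-/

namespace Pool.Agent.Helper6.IP

/-- A finite directed acyclic graph with a root of out-degree 0; parallel edges are allowed, and `rk` increases along
the edges. -/
structure Dag where
  V : Type
  E : Type
  [fV : Fintype V]
  [fE : Fintype E]
  [dV : DecidableEq V]
  [dE : DecidableEq E]
  tail : E → V
  head : E → V
  rk : V → ℕ
  lt : ∀ e, rk (tail e) < rk (head e)
  root : V
  top : ∀ e, tail e ≠ root

attribute [instance] Dag.fV Dag.fE Dag.dV Dag.dE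

/-- The sources. -/
abbrev Dag.Src (G : Dag) : Type := {v : G.V // ∀ e, G.head e ≠ v}

/-- The input cells for values in `A`: the value of a source, and for every edge the entries of a table. -/
abbrev Dag.Cell (G : Dag) (A : Type) : Type := G.Src ⊕ (G.E × A)

/-- The value of a node: a source has the value given in its cell, the value of another node is the sum over its
incoming edges of the entry of the table of the edge at the value of the tail. -/
noncomputable def Dag.val (G : Dag) {A : Type} [AddCommGroup A] (I : G.Cell A → A) (v : G.V) : A :=
  (∑ w : {w : G.Src // w.1 = v}, I (Sum.inl w.1)) +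
    ∑ e : {e : G.E // G.head e = v}, I (Sum.inr (e.1, G.val I (G.tail e.1)))
termination_by G.rk v
decreasing_by
  have h := G.lt e.1
  rw [e.2] at h
  exact h

/-- The nodes can be pebbled up to the set `X` with at most `m` pebbles: a pebble may be placed on a node when all its
predecessors carry pebbles, pebbles may be removed at any time. -/
inductive Dag.Peb (G : Dag) (m : ℕ) : Finset G.V → Prop
  | empty : G.Peb m ∅
  | place (X : Finset G.V) (v : G.V) : G.Peb m X → (∀ e, G.head e = v → G.tail e ∈ X) → (insert v X).card ≤ m →
      G.Peb m (insert v X)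
  | remove (X Y : Finset G.V) : G.Peb m X → Y ⊆ X → G.Peb m Y

/-- The root can be pebbled with `m` pebbles. -/
def Dag.Pebbles (G : Dag) (m : ℕ) : Prop := ∃ X, G.Peb m X ∧ G.root ∈ X

/-- A deterministic branching program with `N` states for input cells `C` with contents in `A`: each state either
queries a cell (and moves according to the answer) or is final with an output. -/
structure BP (C A : Type) (N : ℕ) where
  start : Fin N
  act : Fin N → (C × (A → Fin N)) ⊕ A

/-- One step of the program on the input `I` (final states do not move). -/
def BP.step {C A : Type} {N : ℕ} (B : BP C A N) (I : C → A) (q : Fin N) : Fin N :=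
  (B.act q).elim (fun t => t.2 (I t.1)) (fun _ => q)

/-- The computation on the input `I` reaches a final state with output `a`. -/
def BP.Outputs {C A : Type} {N : ℕ} (B : BP C A N) (I : C → A) (a : A) : Prop :=
  ∃ m : ℕ, B.act ((B.step I)^[m] B.start) = Sum.inr a

/-- In the computation on the input `I` the cell `c` is queried. -/
def BP.Asks {C A : Type} {N : ℕ} (B : BP C A N) (I : C → A) (c : C) : Prop :=
  ∃ (m : ℕ) (next : A → Fin N), B.act ((B.step I)^[m] B.start) = Sum.inl (c, next)

/-- The pyramid of height `n`: the nodes are the pairs `(a, b)` with `a + b ≤ n`, the predecessors of `(a, b)` are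
`(a + 1, b)` and `(a, b + 1)`, the root is `(0, 0)`. -/
def pyr (n : ℕ) : Dag where
  V := {p : Fin (n + 1) × Fin (n + 1) // p.1.val + p.2.val ≤ n}
  E := {p : Fin (n + 1) × Fin (n + 1) // p.1.val + p.2.val < n} × Bool
  tail e := if e.2 then ⟨(⟨e.1.1.1.val + 1, by have := e.1.2; omega⟩, e.1.1.2), by have := e.1.2; simp; omega⟩
    else ⟨(e.1.1.1, ⟨e.1.1.2.val + 1, by have := e.1.2; omega⟩), by have := e.1.2; simp; omega⟩
  head e := ⟨e.1.1, e.1.2.le⟩
  rk v := n - (v.1.1.val + v.1.2.val)
  lt e := by
    have := e.1.2
    split_ifs <;> simp <;> omega
  root := ⟨(0, 0), by simp⟩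
  top e := by
    intro h
    split_ifs at h with h1
    · have h2 := congrArg (fun v => v.1.1.val) h
      simp at h2
    · have h2 := congrArg (fun v => v.1.2.val) h
      simp at h2

end Pool.Agent.Helper6.IP
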