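import Pool.Agent.Helper6.IP.Defs

/-!
# Pyramids
-/

namespace Pool.Agent.Helper6.IP

/-- The point `(a, b)` carries a pebble. -/
def Has {n : ℕ} (X : Finset (pyr n).V) (a b : ℕ) : Prop := ∃ v ∈ X, v.1.1.val = a ∧ v.1.2.val = b

/-- All paths from `(a, b)` down `m` levels meet `X`. -/
def Bl {n : ℕ} (X : Finset (pyr n).V) : ℕ → ℕ → ℕ → Prop
  | 0, a, b => Has X a b
  | m + 1, a, b => Has X a b ∨ (Bl X m (a + 1) b ∧ Bl X m a (b + 1))

theorem Bl.mono {n : ℕ} {X Y : Finset (pyr n).V} (h : X ⊆ Y) : (m a b : ℕ) → Bl X m a b → Bl Y m a b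
  | 0, _, _, ⟨v, hv, h1⟩ => ⟨v, h hv, h1⟩
  | _ + 1, _, _, .inl ⟨v, hv, h1⟩ => .inl ⟨v, h hv, h1⟩
  | m + 1, _, _, .inr h1 => .inr ⟨Bl.mono h m _ _ h1.1, Bl.mono h m _ _ h1.2⟩

theorem Bl.right {n : ℕ} {X : Finset (pyr n).V} : (m a b : ℕ) → Bl X m a b → ∃ i, b ≤ i ∧ Has X a i
  | 0, _, b, h => ⟨b, le_rfl, h⟩
  | _ + 1, _, b, .inl h => ⟨b, le_rfl, h⟩
  | m + 1, a, b, .inr h1 => by
    obtain ⟨i, hi, h2⟩ := Bl.right m _ _ h1.2
    exact ⟨i, by omega, h2⟩

theorem Bl.left {n : ℕ} {X : Finset (pyr n).V} : (m a b : ℕ) → Bl X m a b → ∃ i, a ≤ i ∧ Has X i b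
  | 0, a, _, h => ⟨a, le_rfl, h⟩
  | _ + 1, a, _, .inl h => ⟨a, le_rfl, h⟩
  | m + 1, a, b, .inr h1 => by
    obtain ⟨i, hi, h2⟩ := Bl.left m _ _ h1.1
    exact ⟨i, by omega, h2⟩

/-- The pebbles in the cone of `(a, b)`. -/
def cone {n : ℕ} (X : Finset (pyr n).V) (a b : ℕ) : Finset (pyr n).V :=
  X.filter (fun v => a ≤ v.1.1.val ∧ b ≤ v.1.2.val)

theorem cone_card {n : ℕ} {X : Finset (pyr n).V} {v : (pyr n).V} (hv : v.1.1.val + v.1.2.val = n) :
    (m a b : ℕ) → a + b + m = n → Bl X m a b → ¬ Bl (X.erase v) m a b → m + 1 ≤ (cone X a b).card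
  | 0, a, b, _, ⟨w, hw, h1, h2⟩, _ => by
    refine Finset.card_pos.2 ⟨w, ?_⟩
    simp [cone, hw, h1, h2]
  | m + 1, a, b, hm, hb, hb' => by
    have h0 : ¬ Has X a b := by
      rintro ⟨w, hw, h1, h2⟩
      refine hb' (Or.inl ⟨w, Finset.mem_erase.2 ⟨?_, hw⟩, h1, h2⟩)
      rintro rfl
      omega
    have h3 : Bl X m (a + 1) b ∧ Bl X m a (b + 1) := hb.resolve_left h0
    have h4 : ¬ (Bl (X.erase v) m (a + 1) b ∧ Bl (X.erase v) m a (b + 1)) := fun h => hb' (Or.inr h)
    by_cases h5 : Bl (X.erase v) m (a + 1) b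
    · have h6 : ¬ Bl (X.erase v) m a (b + 1) := fun h => h4 ⟨h5, h⟩
      have ih := cone_card hv m a (b + 1) (by omega) h3.2 h6
      obtain ⟨i, hi, w, hw, h7, h8⟩ := Bl.left m (a + 1) b h3.1
      have h9 : w ∉ cone X a (b + 1) := by
        simp only [cone, Finset.mem_filter, not_and]
        omega
      have h10 : insert w (cone X a (b + 1)) ⊆ cone X a b := by
        intro u hu
        rcases Finset.mem_insert.1 hu with rfl | hu
        · simp only [cone, Finset.mem_filter]
          exact ⟨hw, by omega⟩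
        · simp only [cone, Finset.mem_filter] at hu ⊢
          exact ⟨hu.1, by omega⟩
      have h11 := Finset.card_le_card h10
      rw [Finset.card_insert_of_notMem h9] at h11
      omega
    · have ih := cone_card hv m (a + 1) b (by omega) h3.1 h5
      obtain ⟨i, hi, w, hw, h7, h8⟩ := Bl.right m a (b + 1) h3.2
      have h9 : w ∉ cone X (a + 1) b := by
        simp only [cone, Finset.mem_filter, not_and]
        omega
      have h10 : insert w (cone X (a + 1) b) ⊆ cone X a b := by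
        intro u hu
        rcases Finset.mem_insert.1 hu with rfl | hu
        · simp only [cone, Finset.mem_filter]
          exact ⟨hw, by omega⟩
        · simp only [cone, Finset.mem_filter] at hu ⊢
          exact ⟨hu.1, by omega⟩
      have h11 := Finset.card_le_card h10
      rw [Finset.card_insert_of_notMem h9] at h11
      omega

theorem not_Bl_empty {n : ℕ} : (m a b : ℕ) → ¬ Bl (∅ : Finset (pyr n).V) m a b
  | 0, _, _, ⟨_, hv, _⟩ => absurd hv (by simp)
  | _ + 1, _, _, .inl ⟨_, hv, _⟩ => absurd hv (by simp)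
  | m + 1, _, _, .inr h => not_Bl_empty m _ _ h.1

/-- The predecessors of a node which is not a source. -/
theorem preds {n : ℕ} {X : Finset (pyr n).V} {w : (pyr n).V} (hX : ∀ e, (pyr n).head e = w → (pyr n).tail e ∈ X)
    (hw : w.1.1.val + w.1.2.val < n) : Has X (w.1.1.val + 1) w.1.2.val ∧ Has X w.1.1.val (w.1.2.val + 1) := by
  constructor
  · exact ⟨_, hX (⟨w.1, hw⟩, true) rfl, rfl, rfl⟩
  · exact ⟨_, hX (⟨w.1, hw⟩, false) rfl, rfl, rfl⟩

theorem Bl.head {n : ℕ} {X : Finset (pyr n).V} : (m a b : ℕ) → Has X a b → Bl X m a b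
  | 0, _, _, h => h
  | _ + 1, _, _, h => .inl h

/-- A pebble on a node with pebbles on both predecessors blocks no new path. -/
theorem Bl_insert {n : ℕ} {X : Finset (pyr n).V} {w : (pyr n).V}
    (hX : ∀ e, (pyr n).head e = w → (pyr n).tail e ∈ X) (hw : w.1.1.val + w.1.2.val < n) :
    (m a b : ℕ) → a + b + m = n → Bl (insert w X) m a b → Bl X m a b
  | 0, a, b, hm, ⟨u, hu, h1, h2⟩ => by
    rcases Finset.mem_insert.1 hu with rfl | hu
    · omega
    · exact ⟨u, hu, h1, h2⟩
  | m + 1, a, b, hm, .inl ⟨u, hu, h1, h2⟩ => by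
    rcases Finset.mem_insert.1 hu with rfl | hu
    · obtain ⟨h3, h4⟩ := preds hX hw
      rw [h1, h2] at h3 h4
      exact Or.inr ⟨Bl.head _ _ _ h3, Bl.head _ _ _ h4⟩
    · exact Or.inl ⟨u, hu, h1, h2⟩
  | m + 1, a, b, hm, .inr h =>
    Or.inr ⟨Bl_insert hX hw m _ _ (by omega) h.1, Bl_insert hX hw m _ _ (by omega) h.2⟩

/-- With `n + 1` pebbles: after the removal of some source there is a path without pebbles. -/
theorem inv {n : ℕ} {X : Finset (pyr n).V} (h : (pyr n).Peb (n + 1) X) :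
    ∃ v : (pyr n).V, v.1.1.val + v.1.2.val = n ∧ ¬ Bl (X.erase v) n 0 0 := by
  induction h with
  | empty =>
    refine ⟨⟨(⟨n, by omega⟩, 0), by simp⟩, by simp, fun h => ?_⟩
    exact not_Bl_empty _ _ _ (Bl.mono (Finset.erase_subset _ _) _ _ _ h)
  | remove X Y _ hY ih =>
    obtain ⟨v, hv, h1⟩ := ih
    exact ⟨v, hv, fun h => h1 (Bl.mono (Finset.erase_subset_erase _ hY) _ _ _ h)⟩
  | place X w _ hw hc ih =>
    obtain ⟨v, hv, h1⟩ := ih
    by_cases hwX : w ∈ X
    · rw [Finset.insert_eq_of_mem hwX]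
      exact ⟨v, hv, h1⟩
    · by_cases hB : Bl X n 0 0
      · exfalso
        have h2 := cone_card hv n 0 0 (by omega) hB h1
        have h3 : (cone X 0 0).card ≤ X.card := Finset.card_le_card (Finset.filter_subset _ _)
        rw [Finset.card_insert_of_notMem hwX] at hc
        omega
      · by_cases hs : w.1.1.val + w.1.2.val = n
        · refine ⟨w, hs, ?_⟩
          rw [Finset.erase_insert hwX]
          exact hB
        · refine ⟨v, hv, fun h => hB ?_⟩
          have hlt : w.1.1.val + w.1.2.val < n := lt_of_le_of_ne w.2 hs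
          exact Bl_insert hw hlt n 0 0 (by omega) (Bl.mono (Finset.erase_subset _ _) _ _ _ h)

/-- The pyramid of height `n ≥ 1` cannot be pebbled with `n + 1` pebbles. -/
theorem not_pebbles_pyr {n : ℕ} (hn : 1 ≤ n) : ¬ (pyr n).Pebbles (n + 1) := by
  rintro ⟨X, hX, hr⟩
  obtain ⟨v, hv, h1⟩ := inv hX
  refine h1 (Bl.head _ _ _ ⟨(pyr n).root, Finset.mem_erase.2 ⟨?_, hr⟩, rfl, rfl⟩)
  intro h
  rw [← h] at hv
  have : (0 : ℕ) + 0 = n := hv
  omega

theorem indeg_pyr (n : ℕ) (v : (pyr n).V) : Nat.card {e // (pyr n).head e = v} ≤ 2 := by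
  have h1 : Function.Injective (fun e : {e // (pyr n).head e = v} => e.1.2) := by
    rintro ⟨⟨⟨p, hp⟩, b⟩, he⟩ ⟨⟨⟨p', hp'⟩, b'⟩, he'⟩ h
    have h2 : p = v.1 := congrArg Subtype.val he
    have h3 : p' = v.1 := congrArg Subtype.val he'
    subst h2
    subst h3
    have h4 : b = b' := h
    subst h4
    rfl
  calc _ ≤ Nat.card Bool := Nat.card_le_card_of_injective _ h1
    _ = 2 := by simp

/-! ## The numbers of edges and sources -/

theorem sum_tri (n : ℕ) : (∑ i ∈ Finset.range n, (n - i)) * 2 = n * (n + 1) := by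
  induction n with
  | zero => simp
  | succ n ih =>
    have h1 : ∑ i ∈ Finset.range (n + 1), (n + 1 - i) = ∑ i ∈ Finset.range (n + 1), ((n - i) + 1) :=
      Finset.sum_congr rfl fun i hi => by
        have := Finset.mem_range.1 hi
        omega
    rw [h1, Finset.sum_add_distrib, Finset.sum_range_succ]
    simp only [Nat.sub_self, add_zero, Finset.sum_const, Finset.card_range, smul_eq_mul, mul_one]
    rw [add_mul, ih]
    ring

theorem card_tri (n : ℕ) :
    Fintype.card {p : Fin (n + 1) × Fin (n + 1) // p.1.val + p.2.val < n} * 2 = n * (n + 1) := by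
  have h1 : {p : Fin (n + 1) × Fin (n + 1) // p.1.val + p.2.val < n} ≃ Σ a : Fin n, Fin (n - a.val) :=
    { toFun := fun p => ⟨⟨p.1.1.val, by have := p.2; omega⟩, ⟨p.1.2.val, by have := p.2; simp; omega⟩⟩
      invFun := fun x => ⟨(⟨x.1.val, by have := x.1.2; omega⟩, ⟨x.2.val, by have := x.2.2; omega⟩), by
        have := x.2.2
        have := x.1.2
        simp
        omega⟩
      left_inv := fun p => by
        rcases p with ⟨⟨a, b⟩, h⟩
        rfl
      right_inv := fun x => by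
        rcases x with ⟨a, b⟩
        rfl }
  rw [Fintype.card_congr h1, Fintype.card_sigma]
  simp only [Fintype.card_fin]
  rw [Fin.sum_univ_eq_sum_range (fun i => n - i) n]
  exact sum_tri n

theorem card_E_pyr (n : ℕ) : Nat.card (pyr n).E = n * (n + 1) := by
  have h1 : Nat.card (pyr n).E =
      Nat.card ({p : Fin (n + 1) × Fin (n + 1) // p.1.val + p.2.val < n} × Bool) := rfl
  rw [h1, Nat.card_prod, Nat.card_eq_fintype_card, Nat.card_eq_fintype_card, Fintype.card_bool]
  exact card_tri n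

theorem card_Src_pyr (n : ℕ) : Nat.card (pyr n).Src = n + 1 := by
  have h1 : (pyr n).Src ≃ Fin (n + 1) :=
    { toFun := fun v => v.1.1.1
      invFun := fun a => ⟨⟨(a, ⟨n - a.val, by omega⟩), by have := a.2; simp; omega⟩, fun e he => by
        have h2 : e.1.1 = (a, ⟨n - a.val, by omega⟩) := congrArg Subtype.val he
        have h3 := e.1.2
        rw [h2] at h3
        have := a.2
        simp at h3
        omega⟩
      left_inv := fun v => by
        rcases v with ⟨⟨⟨a, b⟩, hab⟩, hv⟩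
        have h2 : ¬ (a.val + b.val < n) := fun h => hv (⟨(a, b), h⟩, true) rfl
        have h3 : b.val = n - a.val := by
          simp at hab
          omega
        apply Subtype.ext
        apply Subtype.ext
        exact Prod.ext rfl (Fin.ext h3.symm)
      right_inv := fun a => rfl }
  rw [Nat.card_congr h1, Nat.card_fin]

end Pool.Agent.Helper6.IP
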