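import Pool.Agent.Helper60.IP.Count

/-!
# The output without a right cell of the root
-/

namespace Pool.Agent.Helper6.IP

open Pool.Agent.Helper60.IP

variable {G : Dag} {A : Type} [AddCommGroup A] {N : ℕ}

/-- An enumeration of the fibres. -/
theorem exists_rank {A : Type} [Finite A] {p : ℕ} (φ : A → A) (hφ : ∀ y, Nat.card {x // φ x = y} ≤ p) :
    ∃ r : A → Fin p, ∀ x y, φ x = φ y → r x = r y → x = y := by
  have h1 : ∀ x, ∃ f : {y // φ y = x} → Fin p, Function.Injective f := fun x => by
    have := Fintype.ofFinite {y // φ y = x}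
    have h2 : Fintype.card {y // φ y = x} ≤ Fintype.card (Fin p) := by
      rw [← Nat.card_eq_fintype_card, Fintype.card_fin]
      exact hφ x
    obtain ⟨f⟩ := Function.Embedding.nonempty_of_card_le h2
    exact ⟨f, f.injective⟩
  choose f hf using h1
  refine ⟨fun y => f (φ y) ⟨y, rfl⟩, fun x y hxy h => ?_⟩
  have h2 : ∀ (a b : A) (u : {y // φ y = a}) (v : {y // φ y = b}), a = b → f a u = f b v →
      u.1 = v.1 := by
    rintro a b u v rfl huv
    rw [hf a huv]
  exact h2 _ _ _ _ hxy h

/-- The values of the other nodes do not depend on the contents of the right cells of the root. -/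
theorem val_off_root {I K : G.Cell A → A} (h : ∀ c, (∀ s, G.own s = G.root → c ≠ rc I s) → K c = I c) :
    ∀ (r : ℕ) (v : G.V), G.rk v < r → v ≠ G.root → G.val K v = G.val I v := by
  classical
  intro r
  induction r with
  | zero => exact fun v hv => absurd hv (by omega)
  | succ r ih =>
    intro v hv hne
    rw [val_eq, val_eq]
    refine Finset.sum_congr rfl fun s hs => ?_
    have hs' : G.own s = v := (Finset.mem_filter.1 hs).2
    have h1 : rc K s = rc I s := by
      refine rc_congr fun e he => ih _ ?_ (G.top e)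
      have h2 := G.lt e
      have h3 : G.head e = v := by rw [← hs', he]; rfl
      rw [h3] at h2
      omega
    rw [h1]
    refine h _ fun s' hs2 h2 => ?_
    rw [← rc_inj h2] at hs2
    exact hne (hs'.symm.trans hs2)

omit [AddCommGroup A] in
/-- After the output nothing changes. -/
theorem obs_stay {C : Type} (B : BP C A N) {I : C → A} {q : Fin N} {m M : ℕ} {a : A}
    (h : obs B I q m = Sum.inr a) (hM : m ≤ M) : obs B I q M = Sum.inr a := by
  induction M, hM using Nat.le_induction with
  | base => exact h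
  | succ M _ ih =>
    unfold obs see at ih ⊢
    rw [Function.iterate_succ_apply']
    generalize (B.step I)^[M] q = r at ih ⊢
    unfold BP.step
    rcases hact : B.act r with b | b
    · rw [hact] at ih
      simp at ih
    · rw [hact] at ih
      simpa [hact] using ih

/-- The erased cell of the root. -/
def SR (o : ℕ → G.Cell A ⊕ A) (I : G.Cell A → A) (num : G.Slot → ℕ) : Set (G.Cell A) :=
  {c | ∃ s, G.own s = G.root ∧ Last o I num s ∧ c = rc I s}

/-- If a right cell of the root is never observed, the last one is never observed. -/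
theorem last_unseen {o : ℕ → G.Cell A ⊕ A} {I : G.Cell A → A} {num : G.Slot → ℕ} {s s' : G.Slot}
    (hs : G.own s = G.root) (hL : Last o I num s) (hs' : G.own s' = G.root)
    (h : ∀ m, o m ≠ Sum.inl (rc I s')) : ∀ m, o m ≠ Sum.inl (rc I s) := by
  by_cases h1 : s' = s
  · rw [← h1]
    exact h
  · intro m hm
    have h2 : tm o (Sum.inl (rc I s)) ≤ m := tm_le hm
    have h3 : tm o (Sum.inl (rc I s')) = ⊤ := tm_eq_top h
    rcases hL s' (hs'.trans hs.symm) h1 with h4 | h4
    · rw [h3] at h4
      exact absurd h4 (by simp)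
    · rw [← h4.1, h3] at h2
      exact absurd h2 (by simp)

omit [AddCommGroup A] in
/-- The run does not change when an unseen cell changes. -/
theorem run_eq {B : BP (G.Cell A) A N} {q : Fin N} {I K : G.Cell A → A} {S : Set (G.Cell A)}
    (hS : ∀ c ∈ S, ∀ m, obs B I q m ≠ Sum.inl c) (hK : ∀ c, c ∉ S → K c = I c) :
    obs B K q = obs B I q := by
  have h : ∀ t, (B.step I)^[t] q = (B.step K)^[t] q := by
    intro t
    induction t with
    | zero => rfl
    | succ t ih =>
      refine run_succ ih fun c hc => (hK c fun hcS => hS c hcS t hc).symm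
  exact funext fun t => (obs_congr (h t)).symm

theorem root_bound [Fintype A] (B : BP (G.Cell A) A N) (q : Fin N) (φ : A → A) (p : ℕ)
    (hφ : ∀ y, Nat.card {x // φ x = y} ≤ p) :
    Nat.card {I : G.Cell A → A // (∃ L, obs B I q L = Sum.inr (φ (G.val I G.root))) ∧
      ∃ s, G.own s = G.root ∧ ∀ m, obs B I q m ≠ Sum.inl (rc I s)} * Fintype.card A ≤
      p * Nat.card (G.Cell A → A) := by
  classical
  obtain ⟨num, hnum⟩ : ∃ num : G.Slot → ℕ, Function.Injective num :=
    ⟨fun s => (Fintype.equivFin G.Slot s : ℕ), fun s s' h =>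
      (Fintype.equivFin G.Slot).injective (Fin.val_injective h)⟩
  obtain ⟨r, hr⟩ := exists_rank φ hφ
  have h0 := packing {I : G.Cell A → A | (∃ L, obs B I q L = Sum.inr (φ (G.val I G.root))) ∧
      ∃ s, G.own s = G.root ∧ ∀ m, obs B I q m ≠ Sum.inl (rc I s)} (fun I => SR (obs B I q) I num)
    (fun I => {(r (G.val I G.root) : ℕ)}) p 1 ?_ ?_ ?_
  · rw [pow_one, Nat.choose_one_right, Nat.card_eq_fintype_card (α := A)] at h0
    exact h0
  · rintro I ⟨-, s, hs, -⟩
    obtain ⟨s', hs', hL⟩ := last_exists (obs B I q) I num hnum s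
    have h1 : SR (obs B I q) I num = {rc I s'} := by
      ext c
      constructor
      · rintro ⟨s2, h2, h3, rfl⟩
        rw [Set.mem_singleton_iff, h3.unique hL (h2.trans (hs'.trans hs).symm)]
      · intro hc
        exact ⟨s', hs'.trans hs, hL, hc⟩
    rw [h1, Set.ncard_singleton]
  · intro I _
    refine ⟨Set.ncard_singleton _, fun j hj => ?_⟩
    rw [Set.mem_singleton_iff] at hj
    rw [hj]
    exact (r _).2
  · rintro I ⟨⟨L, hL⟩, s, hs, hs'⟩ I' ⟨⟨L', hL'⟩, s2, hs2, hs2'⟩ K hM hK hK'
    have hun : ∀ c ∈ SR (obs B I q) I num, ∀ m, obs B I q m ≠ Sum.inl c := by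
      rintro c ⟨s1, h1, h2, rfl⟩
      exact last_unseen h1 h2 hs hs'
    have hun' : ∀ c ∈ SR (obs B I' q) I' num, ∀ m, obs B I' q m ≠ Sum.inl c := by
      rintro c ⟨s1, h1, h2, rfl⟩
      exact last_unseen h1 h2 hs2 hs2'
    have ho : obs B I q = obs B I' q := (run_eq hun hK).symm.trans (run_eq hun' hK')
    have hv1 : ∀ v, v ≠ G.root → G.val K v = G.val I v := fun v hv =>
      val_off_root (fun c hc => hK c fun ⟨s1, h1, _, h3⟩ => hc s1 h1 h3) (G.rk v + 1) v (by omega) hv
    have hv2 : ∀ v, v ≠ G.root → G.val K v = G.val I' v := fun v hv =>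
      val_off_root (fun c hc => hK' c fun ⟨s1, h1, _, h3⟩ => hc s1 h1 h3) (G.rk v + 1) v (by omega) hv
    have hrc : ∀ s, rc I s = rc I' s := fun s =>
      rc_congr fun e _ => (hv1 _ (G.top e)).symm.trans (hv2 _ (G.top e))
    rw [← ho] at hL' hK'
    have hLL : ∀ s, Last (obs B I q) I' num s ↔ Last (obs B I q) I num s := by
      intro s
      unfold Last
      refine forall_congr' fun s' => ?_
      rw [hrc s, hrc s']
    have hSS : SR (obs B I q) I num = SR (obs B I q) I' num := by
      ext c
      constructor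
      · rintro ⟨s1, h1, h2, rfl⟩
        exact ⟨s1, h1, (hLL s1).2 h2, hrc s1⟩
      · rintro ⟨s1, h1, h2, rfl⟩
        exact ⟨s1, h1, (hLL s1).1 h2, (hrc s1).symm⟩
    have hout : φ (G.val I G.root) = φ (G.val I' G.root) := by
      have h1 := obs_stay B hL (Nat.le_add_right L L')
      have h2 := obs_stay B hL' (Nat.le_add_left L' L)
      rw [h1] at h2
      exact Sum.inr_injective h2
    have hval : G.val I G.root = G.val I' G.root := by
      refine hr _ _ hout ?_
      have h1 : (r (G.val I G.root) : ℕ) ∈ ({(r (G.val I' G.root) : ℕ)} : Set ℕ) := by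
        rw [← hM]
        exact Set.mem_singleton _
      exact Fin.ext (Set.mem_singleton_iff.1 h1)
    have hoff : ∀ c, c ∉ SR (obs B I q) I num → I c = I' c := fun c hc => by
      rw [← hK c hc, ← hK' c (by rw [← hSS]; exact hc)]
    funext c
    by_cases hc : c ∈ SR (obs B I q) I num
    · obtain ⟨s1, h1, h2, rfl⟩ := hc
      rw [val_eq, val_eq] at hval
      have hmem : s1 ∈ Finset.univ.filter (fun s' => G.own s' = G.root) := by simp [h1]
      rw [← Finset.add_sum_erase _ _ hmem, ← Finset.add_sum_erase _ _ hmem] at hval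
      have hsum : ∑ x ∈ (Finset.univ.filter (fun s' => G.own s' = G.root)).erase s1, I (rc I x) =
          ∑ x ∈ (Finset.univ.filter (fun s' => G.own s' = G.root)).erase s1, I' (rc I' x) :=
        Finset.sum_congr rfl fun x hx => by
          have hx1 := (Finset.mem_filter.1 (Finset.mem_of_mem_erase hx)).2
          rw [← hrc x]
          refine hoff _ ?_
          rintro ⟨s3, h3, h4, h5⟩
          exact Finset.ne_of_mem_erase hx ((rc_inj h5).trans (h4.unique h2 (h3.trans h1.symm)))
      rw [hsum] at hval
      have h6 := add_right_cancel hval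
      rw [← hrc s1] at h6
      exact h6
    · exact hoff c hc

end Pool.Agent.Helper6.IP
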